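import Pool.Agent.Lib.MP_8115c2_gt.Log.Struct
import Pool.Agent.Lib.MP_8115c2_gt.Iso

/-!
Families of linear maps that contract the Busemann density contract the Hausdorff measure.
-/

open MeasureTheory Set Metric Filter Topology
open scoped ENNReal Pointwise

namespace Pool.Agent.Lib.MP_8115c2_gt.Log

variable {F : Type} [NormedAddCommGroup F] [NormedSpace ℝ F] {n : ℕ} {κ : Type} [Fintype κ]

/-- The family `T` contracts volumes of unit balls of subspaces. -/
def Contr (T : κ → F →L[ℝ] E n) (C : ℝ) : Prop :=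
  ∀ (L : E n →L[ℝ] F) (K : Set (E n)), IsCompact K → Convex ℝ K → (∀ x ∈ K, ‖L x‖ ≤ 1) →
    ∑ p, volume.real ((T p).comp L '' K) ≤ C

/-- The sum of the volumes of the images. -/
noncomputable def nu (T : κ → F →L[ℝ] E n) : OuterMeasure F :=
  OuterMeasure.sum fun p => OuterMeasure.comap (T p) (volume : Measure (E n)).toOuterMeasure

theorem nu_apply (T : κ → F →L[ℝ] E n) (A : Set F) : nu T A = ∑ p, volume (T p '' A) := by
  rw [nu, OuterMeasure.sum_apply, tsum_fintype]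
  rfl

/-- The truncated unit ball. -/
def KB (L : E n →L[ℝ] F) (τ : ℝ) : Set (E n) := closedBall 0 τ ∩ L ⁻¹' closedBall 0 1

theorem KB_compact (L : E n →L[ℝ] F) (τ : ℝ) : IsCompact (KB L τ) :=
  (isCompact_closedBall _ _).inter_right (isClosed_closedBall.preimage L.continuous)

theorem Contr.thick {T : κ → F →L[ℝ] E n} {C ε : ℝ} (h : Contr T C) (hε : 0 < ε)
    (L : E n →L[ℝ] F) (τ : ℝ) :
    ∃ η > (0 : ℝ), ∑ p, volume.real (cthickening η ((T p).comp L '' KB L τ)) ≤ C + ε := by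
  have h1 := h L (KB L τ) (KB_compact L τ)
    ((convex_closedBall _ _).inter ((convex_closedBall _ _).linear_preimage (L : E n →ₗ[ℝ] F)))
    (fun x hx => mem_closedBall_zero_iff.1 hx.2)
  have h2 : Tendsto (fun η => ∑ p, volume.real (cthickening η ((T p).comp L '' KB L τ))) (𝓝 0)
      (𝓝 (∑ p, volume.real ((T p).comp L '' KB L τ))) := by
    refine tendsto_finsetSum _ fun p _ => ?_
    have hc := (KB_compact L τ).image ((T p).comp L).continuous
    exact (ENNReal.tendsto_toReal hc.measure_lt_top.ne).comp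
      (tendsto_measure_cthickening_of_isCompact hc)
  have h3 := (h2.eventually (gt_mem_nhds (h1.trans_lt (lt_add_of_pos_right C hε)))).filter_mono
    (nhdsWithin_le_nhds (s := Ioi (0 : ℝ)))
  obtain ⟨η, h4, h5⟩ := (h3.and self_mem_nhdsWithin).exists
  exact ⟨η, h5, h4.le⟩

variable [MeasurableSpace F] [BorelSpace F]

theorem piece_nu (T : κ → F →L[ℝ] E n) (S : F →L[ℝ] E n) (L : E n →L[ℝ] F) {η r ε C : ℝ}
    (hC : 0 < C) (hε : 0 ≤ ε) (hr0 : 0 ≤ r)
    (hη : ∑ p, volume.real (cthickening η ((T p).comp L '' KB L ‖S‖)) ≤ C) (hr : r * ‖S‖ ≤ ε)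
    (hr' : ∀ p, ‖T p‖ * (r * ‖S‖) ≤ η) (P : Set F)
    (hP : ∀ u ∈ P, ∀ u' ∈ P, ‖u - u' - L (S u - S u')‖ ≤ r * ‖S u - S u'‖) :
    nu T P ≤ ENNReal.ofReal (((1 + ε) / 2) ^ n * C) * μH[n] P := by
  refine le_hausdorff n (nu T) P (by rw [Ne, ENNReal.ofReal_eq_zero, not_le]; positivity)
    ENNReal.ofReal_ne_top one_pos fun A d hA hd _ hAd => ?_
  have key : ∀ p, volume (T p '' A) ≤ ENNReal.ofReal (((1 + ε) * d / 2) ^ n *
      volume.real (cthickening η ((T p).comp L '' KB L ‖S‖))) := by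
    intro p
    refine isodiam ((KB_compact L _).image ((T p).comp L).continuous).cthickening
      (by positivity) ?_
    rintro _ ⟨u, hu, rfl⟩ _ ⟨u', hu', rfl⟩
    have h1 : ‖u - u'‖ ≤ d := by rw [← dist_eq_norm]; exact hAd u hu u' hu'
    have h2 := hP u (hA hu) u' (hA hu')
    rw [← map_sub] at h2 ⊢
    set w := u - u' with hw
    have h3 : ‖S w‖ ≤ ‖S‖ * d := (S.le_opNorm w).trans (by gcongr)
    have h4 : ‖w - L (S w)‖ ≤ r * ‖S‖ * d := by
      refine h2.trans ?_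
      rw [mul_assoc]
      gcongr
    rcases hd.eq_or_lt with rfl | hd'
    · have h5 : w = 0 := norm_le_zero_iff.1 h1
      refine ⟨0, self_subset_cthickening _ ⟨0, ⟨by simp, by simp⟩, by simp⟩, by simp [h5]⟩
    have hδ : 0 < (1 + ε) * d := by positivity
    refine ⟨((1 + ε) * d)⁻¹ • T p w, ?_, by simp only [smul_inv_smul₀ hδ.ne']⟩
    refine mem_cthickening_of_dist_le _ _ _ _ ⟨((1 + ε) * d)⁻¹ • S w, ⟨?_, ?_⟩, rfl⟩ ?_
    · rw [mem_closedBall_zero_iff, norm_smul, norm_inv, Real.norm_eq_abs, abs_of_pos hδ,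
        inv_mul_le_iff₀ hδ]
      have := norm_nonneg S
      nlinarith [mul_nonneg (mul_nonneg hε hd) this]
    · rw [mem_preimage, mem_closedBall_zero_iff, map_smul, norm_smul, norm_inv, Real.norm_eq_abs,
        abs_of_pos hδ, inv_mul_le_iff₀ hδ]
      have h6 : ‖L (S w)‖ ≤ ‖w‖ + ‖w - L (S w)‖ := by
        calc ‖L (S w)‖ = ‖w - (w - L (S w))‖ := by congr 1; abel
          _ ≤ _ := norm_sub_le _ _
      have h7 : r * ‖S‖ * d ≤ ε * d := by gcongr
      linarith
    · rw [map_smul, dist_eq_norm, ← smul_sub, ContinuousLinearMap.comp_apply, ← map_sub, norm_smul,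
        norm_inv, Real.norm_eq_abs, abs_of_pos hδ, inv_mul_le_iff₀ hδ]
      have h6 : ‖T p (w - L (S w))‖ ≤ ‖T p‖ * (r * ‖S‖ * d) :=
        ((T p).le_opNorm _).trans (by gcongr)
      have h7 : ‖T p‖ * (r * ‖S‖) * d ≤ η * d := by gcongr; exact hr' p
      have h8 : 0 ≤ η := le_trans (by positivity) (hr' p)
      nlinarith [mul_nonneg (mul_nonneg hε hd) h8]
  rw [nu_apply]
  refine (Finset.sum_le_sum fun p _ => key p).trans ?_
  rw [← ENNReal.ofReal_sum_of_nonneg (fun p _ => mul_nonneg (by positivity) measureReal_nonneg),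
    ← Finset.mul_sum, ← ENNReal.ofReal_mul (by positivity)]
  refine ENNReal.ofReal_le_ofReal ?_
  calc _ ≤ ((1 + ε) * d / 2) ^ n * C := by gcongr
    _ = _ := by rw [mul_div_right_comm, mul_pow]; ring

variable [FiniteDimensional ℝ F]

theorem graph_nu {T : κ → F →L[ℝ] E n} {C ε : ℝ} (h : Contr T C) (hC : 0 ≤ C) (hε : 0 < ε)
    (S : F →L[ℝ] E n) (Γ : Set F) (hΓm : MeasurableSet Γ) (hΓ : Graph S Γ) :
    nu T Γ ≤ ENNReal.ofReal (((1 + ε) / 2) ^ n * (C + ε)) * μH[n] Γ := by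
  obtain ⟨s, hs, hΓ⟩ := hΓ
  have hinj : InjOn S Γ := by
    intro x hx y hy hxy
    have h1 := hΓ x hx y hy
    rw [map_sub, hxy, sub_self, norm_zero] at h1
    have h2 : ‖x - y‖ ≤ 0 := by
      by_contra hc
      push Not at hc
      nlinarith
    exact sub_eq_zero.1 (norm_le_zero_iff.1 h2)
  set φ : E n → F := Function.invFunOn S Γ with hφ
  have hφT : ∀ u ∈ Γ, φ (S u) = u := fun u hu => hinj.leftInvOn_invFunOn hu
  have hlip : LipschitzOnWith ⟨s⁻¹, by positivity⟩ φ (S '' Γ) := by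
    refine LipschitzOnWith.of_dist_le_mul ?_
    rintro _ ⟨x, hx, rfl⟩ _ ⟨y, hy, rfl⟩
    rw [hφT x hx, hφT y hy, dist_eq_norm, dist_eq_norm, ← map_sub]
    exact (le_inv_mul_iff₀ hs).2 (hΓ x hx y hy)
  have hae := hlip.ae_differentiableWithinAt_of_mem (μ := (volume : Measure (E n)))
  set D : Set (E n) := {x ∈ S '' Γ | DifferentiableWithinAt ℝ φ (S '' Γ) x} with hD
  have hr : ∀ L : E n →L[ℝ] F, ∃ r : NNReal, r ≠ 0 ∧ ∃ η : ℝ,
      ∑ p, volume.real (cthickening η ((T p).comp L '' KB L ‖S‖)) ≤ C + ε ∧ r * ‖S‖ ≤ ε ∧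
        ∀ p, ‖T p‖ * (r * ‖S‖) ≤ η := by
    intro L
    obtain ⟨η, hη, h1⟩ := h.thick hε L ‖S‖
    have h2 : ∀ᶠ r : ℝ in 𝓝 0, r * ‖S‖ < ε ∧ ∀ p, ‖T p‖ * (r * ‖S‖) < η := by
      refine Eventually.and ?_ (eventually_all.2 fun p => ?_)
      · exact ((by fun_prop : Continuous fun r : ℝ => r * ‖S‖).tendsto' 0 0 (by simp)).eventually
          (gt_mem_nhds hε)
      · exact ((by fun_prop : Continuous fun r : ℝ => ‖T p‖ * (r * ‖S‖)).tendsto' 0 0
          (by simp)).eventually (gt_mem_nhds hη)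
    obtain ⟨r, h3, h4⟩ := ((h2.filter_mono (nhdsWithin_le_nhds (s := Ioi (0 : ℝ)))).and
      self_mem_nhdsWithin).exists
    exact ⟨⟨r, le_of_lt h4⟩, fun h0 => (ne_of_gt h4) (congrArg NNReal.toReal h0), η, h1, h3.1.le,
      fun p => (h3.2 p).le⟩
  choose r hr0 η h1 h2 h3 using hr
  obtain ⟨t, A, hd, hm, hcov, happ, -⟩ :=
    exists_partition_approximatesLinearOn_of_hasFDerivWithinAt φ D
      (fun x => fderivWithin ℝ φ (S '' Γ) x)
      (fun x hx => hx.2.hasFDerivWithinAt.mono fun y hy => hy.1) r hr0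
  set P : ℕ → Set F := fun i => Γ ∩ S ⁻¹' (D ∩ t i) with hP
  set c := ENNReal.ofReal (((1 + ε) / 2) ^ n * (C + ε)) with hc
  have hPi : ∀ i, nu T (P i) ≤ c * μH[n] (Γ ∩ S ⁻¹' t i) := by
    intro i
    refine (piece_nu T S (A i) (by positivity) hε.le (r (A i)).2 (h1 _) (h2 _) (h3 _) (P i)
      ?_).trans ?_
    · intro u hu u' hu'
      have h4 := happ i (S u) hu.2 (S u') hu'.2
      rw [hφT u hu.1, hφT u' hu'.1] at h4
      exact h4
    · gcongr
      exact fun u hu => ⟨hu.1, hu.2.2⟩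
  have hN : nu T (φ '' (S '' Γ \ D)) = 0 := by
    have h4 : volume (S '' Γ \ D) = 0 := by
      refine measure_mono_null ?_ (ae_iff.1 hae)
      exact fun x hx h' => hx.2 ⟨hx.1, h' hx.1⟩
    have h5 : (μH[n] : Measure (E n)) ≪ volume :=
      Measure.absolutelyContinuous_isAddHaarMeasure _ _
    have h6 := (hlip.mono (sdiff_subset (t := D))).hausdorffMeasure_image_le (d := (n : ℝ))
      (Nat.cast_nonneg n)
    rw [h5 h4, mul_zero] at h6
    rw [nu_apply]
    exact Finset.sum_eq_zero fun p _ => vol_image_null _ (T p).lipschitz _ (le_antisymm h6 zero_le)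
  have hsub : Γ ⊆ φ '' (S '' Γ \ D) ∪ ⋃ i, P i := by
    intro u hu
    by_cases h4 : S u ∈ D
    · obtain ⟨i, hi⟩ := mem_iUnion.1 (hcov h4)
      exact Or.inr (mem_iUnion.2 ⟨i, hu, h4, hi⟩)
    · exact Or.inl ⟨S u, ⟨⟨u, hu, rfl⟩, h4⟩, hφT u hu⟩
  calc nu T Γ ≤ 0 + nu T (⋃ i, P i) := by
        rw [← hN]
        exact (measure_mono hsub).trans (measure_union_le _ _)
    _ ≤ ∑' i, c * μH[n] (Γ ∩ S ⁻¹' t i) := by
        rw [zero_add]
        exact (measure_iUnion_le _).trans (ENNReal.tsum_le_tsum hPi)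
    _ = c * μH[n] (⋃ i, Γ ∩ S ⁻¹' t i) := by
        rw [ENNReal.tsum_mul_left, measure_iUnion]
        · intro i j hij
          exact Disjoint.mono inter_subset_right inter_subset_right ((hd hij).preimage S)
        · exact fun i => hΓm.inter (S.continuous.measurable (hm i))
    _ ≤ _ := by
        gcongr
        exact iUnion_subset fun i => inter_subset_left

theorem rect_nu [Nonempty κ] {T : κ → F →L[ℝ] E n} {C ε : ℝ} (h : Contr T C) (hC : 0 ≤ C)
    (hε : 0 < ε) (Y : Set F) (hY : MeasurableSet Y)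
    (hT : ∀ p, ∃ (Z : Set F) (Γ : ℕ → Set F), Y ⊆ Z ∪ ⋃ i, Γ i ∧ volume (T p '' Z) = 0 ∧
      ∀ i, Graph (T p) (Γ i)) :
    nu T Y ≤ ENNReal.ofReal (((1 + ε) / 2) ^ n * (C + ε)) * μH[n] Y := by
  choose Z Γ hcov hZ hΓ using hT
  obtain ⟨e, he⟩ := exists_surjective_nat (κ × ℕ)
  set G : ℕ → Set F := fun m => closure (Γ (e m).1 (e m).2) with hG
  set Δ : ℕ → Set F := fun i => Y ∩ disjointed G i with hΔ
  have hm : ∀ i, MeasurableSet (Δ i) := fun i =>
    hY.inter (MeasurableSet.disjointed (fun i => isClosed_closure.measurableSet) i)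
  have hsub : Y ⊆ (⋂ p, Z p) ∪ ⋃ i, Δ i := by
    intro y hy
    by_cases h1 : y ∈ ⋃ i, G i
    · rw [← iUnion_disjointed] at h1
      obtain ⟨i, hi⟩ := mem_iUnion.1 h1
      exact Or.inr (mem_iUnion.2 ⟨i, hy, hi⟩)
    · refine Or.inl (mem_iInter.2 fun p => (hcov p hy).resolve_right fun h2 => h1 ?_)
      obtain ⟨i, hi⟩ := mem_iUnion.1 h2
      obtain ⟨m, hm⟩ := he (p, i)
      refine mem_iUnion.2 ⟨m, subset_closure ?_⟩
      rw [hm]
      exact hi
  have h0 : nu T (⋂ p, Z p) = 0 := by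
    rw [nu_apply]
    exact Finset.sum_eq_zero fun p _ => measure_mono_null (image_mono (iInter_subset _ p)) (hZ p)
  set c := ENNReal.ofReal (((1 + ε) / 2) ^ n * (C + ε)) with hc
  calc nu T Y ≤ 0 + nu T (⋃ i, Δ i) := by
        rw [← h0]
        exact (measure_mono hsub).trans (measure_union_le _ _)
    _ ≤ ∑' i, c * μH[n] (Δ i) := by
        rw [zero_add]
        refine (measure_iUnion_le _).trans (ENNReal.tsum_le_tsum fun i => ?_)
        exact graph_nu h hC hε _ _ (hm i)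
          ((hΓ _ _).closure.mono (inter_subset_right.trans (disjointed_subset G i)))
    _ = c * μH[n] (⋃ i, Δ i) := by
        rw [ENNReal.tsum_mul_left, measure_iUnion _ hm]
        intro i j hij
        exact Disjoint.mono inter_subset_right inter_subset_right (disjoint_disjointed _ hij)
    _ ≤ _ := by
        gcongr
        exact iUnion_subset fun i => inter_subset_left

end Pool.Agent.Lib.MP_8115c2_gt.Log
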