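import Pool.Agent.Lib.MP_8115c2_gt.Log.Basic
import Pool.Agent.Shared.BrunnMinkowski

/-!
The area of a zonogon against the area of a convex set in the intersection of the dual strips.
-/

open MeasureTheory Set Metric Filter Topology
open scoped ENNReal Pointwise

namespace Pool.Agent.Lib.MP_8115c2_gt.Log

/-- The determinant of two plane vectors. -/
def dt (s x : E 2) : ℝ := s 0 * x 1 - s 1 * x 0

theorem det2 (A : E 2 →ₗ[ℝ] E 2) :
    LinearMap.det A = dt (A (EuclideanSpace.single 0 1)) (A (EuclideanSpace.single 1 1)) := by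
  rw [← LinearMap.det_toMatrix (EuclideanSpace.basisFun (Fin 2) ℝ).toBasis, Matrix.det_fin_two]
  simp [LinearMap.toMatrix_apply, dt, mul_comm]

theorem seg_prod {B : Set (ℝ × ℝ)} (hB : IsCompact B) (hc : Convex ℝ B) :
    volume (B + segment ℝ 0 ((0, 1) : ℝ × ℝ)) = volume B + volume (Prod.fst '' B) := by
  have hs : IsCompact (segment ℝ 0 ((0, 1) : ℝ × ℝ)) := by
    rw [segment_eq_image]; exact isCompact_Icc.image (by fun_prop)
  have hm : MeasurableSet (Prod.fst '' B) := (hB.image continuous_fst).measurableSet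
  rw [Measure.volume_eq_prod, Measure.prod_apply (hB.add hs).measurableSet,
    Measure.prod_apply hB.measurableSet, ← lintegral_indicator_one hm,
    ← lintegral_add_right _ (measurable_one.indicator hm)]
  refine lintegral_congr fun a => ?_
  have hsec : Prod.mk a ⁻¹' (B + segment ℝ 0 ((0, 1) : ℝ × ℝ)) = Prod.mk a ⁻¹' B + Icc 0 1 := by
    ext b
    simp only [mem_preimage, Set.mem_add, segment_eq_image, mem_image]
    constructor
    · rintro ⟨⟨x1, x2⟩, hx, _, ⟨t, ht, rfl⟩, h⟩
      simp only [smul_zero, Prod.smul_mk, smul_eq_mul, mul_zero, mul_one, zero_add, Prod.mk_add_mk,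
        add_zero, Prod.mk.injEq] at h
      exact ⟨x2, h.1 ▸ hx, t, ht, h.2⟩
    · rintro ⟨x, hx, t, ht, h⟩
      exact ⟨(a, x), hx, _, ⟨t, ht, rfl⟩, by simp [h]⟩
  rw [hsec]
  by_cases ha : a ∈ Prod.fst '' B
  · obtain ⟨⟨a', b⟩, hb, rfl⟩ := ha
    have h1 : IsCompact (Prod.mk a' ⁻¹' B) :=
      (hB.image continuous_snd).of_isClosed_subset (hB.isClosed.preimage (by fun_prop))
        fun y hy => ⟨_, hy, rfl⟩
    have h2 : Convex ℝ (Prod.mk a' ⁻¹' B) := by
      intro x hx y hy s t hs ht hst
      have := hc hx hy hs ht hst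
      simp only [Prod.smul_mk, Prod.mk_add_mk, ← add_smul, hst, one_smul] at this
      exact this
    have h3 := eq_Icc_of_connected_compact (h2.isConnected ⟨b, hb⟩) h1
    have h4 : sInf (Prod.mk a' ⁻¹' B) ≤ sSup (Prod.mk a' ⁻¹' B) := by
      have : b ∈ Prod.mk a' ⁻¹' B := hb
      rw [h3] at this
      exact this.1.trans this.2
    rw [indicator_of_mem (mem_image_of_mem _ hb), h3, Icc_add_Icc h4 zero_le_one, Real.volume_Icc,
      Real.volume_Icc, Pi.one_apply, ← ENNReal.ofReal_one,
      ← ENNReal.ofReal_add (by linarith) zero_le_one]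
    congr 1
    ring
  · have : Prod.mk a ⁻¹' B = ∅ := eq_empty_of_forall_notMem fun b hb => ha ⟨_, hb, rfl⟩
    rw [this, indicator_of_notMem ha]
    simp

theorem seg_vol {A : Set (E 2)} (hA : IsCompact A) (hc : Convex ℝ A) (s : E 2) :
    volume (A + segment ℝ 0 s) = volume A + volume (dt s '' A) := by
  by_cases hs : s = 0
  · subst hs
    have : dt 0 '' A ⊆ {0} := by rintro _ ⟨x, -, rfl⟩; simp [dt]
    rw [segment_same, measure_mono_null this (measure_singleton _)]
    simp
  have hq : 0 < s 0 ^ 2 + s 1 ^ 2 := by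
    by_contra h
    apply hs
    ext i
    fin_cases i
    · show s 0 = 0
      nlinarith [sq_nonneg (s 0), sq_nonneg (s 1)]
    · show s 1 = 0
      nlinarith [sq_nonneg (s 0), sq_nonneg (s 1)]
  let Λ : E 2 →ₗ[ℝ] E 2 :=
    { toFun := fun x => !₂[dt s x, (s 0 * x 0 + s 1 * x 1) / (s 0 ^ 2 + s 1 ^ 2)]
      map_add' := fun x y => by
        ext i; fin_cases i <;> simp [dt] <;> ring
      map_smul' := fun c x => by
        ext i; fin_cases i <;> simp [dt] <;> ring }
  have hdet : |LinearMap.det Λ| = 1 := by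
    rw [det2]
    have : dt (Λ (EuclideanSpace.single 0 1)) (Λ (EuclideanSpace.single 1 1)) = -1 := by
      simp [Λ, dt]
      field_simp
      ring
    rw [this]; simp
  let ψ : E 2 ≃ᵐ ℝ × ℝ := (MeasurableEquiv.toLp 2 (Fin 2 → ℝ)).symm.trans MeasurableEquiv.finTwoArrow
  have hψ : MeasurePreserving ψ :=
    (EuclideanSpace.volume_preserving_symm_measurableEquiv_toLp (Fin 2)).trans
      (volume_preserving_finTwoArrow ℝ)
  let Ψ : E 2 →ₗ[ℝ] ℝ × ℝ :=
    { toFun := fun x => (dt s x, (s 0 * x 0 + s 1 * x 1) / (s 0 ^ 2 + s 1 ^ 2))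
      map_add' := fun x y => by
        ext <;> simp [dt] <;> ring
      map_smul' := fun c x => by
        ext <;> simp [dt] <;> ring }
  have hvol : ∀ S : Set (E 2), volume (Ψ '' S) = volume S := by
    intro S
    have h1 : Ψ '' S = ψ.symm ⁻¹' (Λ '' S) := by
      rw [← ψ.image_eq_preimage_symm, image_image]
      rfl
    rw [h1, (hψ.symm ψ).measure_preimage_equiv, Measure.addHaar_image_linearMap, hdet]
    simp
  have hΨs : Ψ s = (0, 1) := by
    ext
    · simp [Ψ, dt]; ring
    · simp only [Ψ, LinearMap.coe_mk, AddHom.coe_mk]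
      field_simp
  have hcont : Continuous Ψ := Ψ.continuous_of_finiteDimensional
  have hseg : Ψ '' segment ℝ 0 s = segment ℝ 0 ((0, 1) : ℝ × ℝ) := by
    have := image_segment ℝ Ψ.toAffineMap 0 s
    simpa only [LinearMap.coe_toAffineMap, map_zero, hΨs] using this
  rw [← hvol, ← hvol A, image_add Ψ, hseg, seg_prod (hA.image hcont) (hc.linear_image Ψ),
    image_image]
  rfl

theorem seg_compact (s : E 2) : IsCompact (segment ℝ 0 s) := by
  rw [segment_eq_image]; exact isCompact_Icc.image (by fun_prop)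

theorem dt_cont (s : E 2) : Continuous (dt s) := by unfold dt; fun_prop

theorem seg_real {A : Set (E 2)} (hA : IsCompact A) (hc : Convex ℝ A) (s : E 2) :
    volume.real (A + segment ℝ 0 s) = volume.real A + volume.real (dt s '' A) := by
  rw [measureReal_def, seg_vol hA hc,
    ENNReal.toReal_add hA.measure_lt_top.ne (hA.image (dt_cont s)).measure_lt_top.ne]
  rfl

theorem dt_add (s x y : E 2) : dt s (x + y) = dt s x + dt s y := by simp [dt]; ring

theorem dt_smul (s x : E 2) (t : ℝ) : dt s (t • x) = t * dt s x := by simp [dt]; ring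

theorem dt_comm (s x : E 2) : |dt s x| = |dt x s| := by
  rw [← abs_neg]; congr 1; simp [dt]; ring

theorem dt_self (s : E 2) : dt s s = 0 := by simp [dt]; ring

variable {ι : Type} [DecidableEq ι]

theorem sum_insert_dt (s : ι → E 2) (S : Finset ι) {a : ι} (ha : a ∉ S) :
    ∑ i ∈ insert a S, ∑ j ∈ insert a S, |dt (s i) (s j)| =
      ∑ i ∈ S, ∑ j ∈ S, |dt (s i) (s j)| + 2 * ∑ i ∈ S, |dt (s i) (s a)| := by
  simp only [Finset.sum_insert ha, dt_self, abs_zero, zero_add, Finset.sum_add_distrib]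
  simp_rw [dt_comm (s a)]
  ring

theorem zono_upper (s : ι → E 2) (S : Finset ι) : ∀ (A : Set (E 2)) (W : ι → ℝ), IsCompact A →
    Convex ℝ A → (∀ i, 0 ≤ W i) → (∀ i, ∀ x ∈ A, ∀ y ∈ A, dt (s i) x - dt (s i) y ≤ W i) →
    volume.real (A + ∑ i ∈ S, segment ℝ 0 (s i)) ≤
      volume.real A + ∑ i ∈ S, W i + (∑ i ∈ S, ∑ j ∈ S, |dt (s i) (s j)|) / 2 := by
  induction S using Finset.induction_on with
  | empty => intro A W _ _ _ _; simp
  | insert a S ha ih =>
    intro A W hA hc hW h
    rw [Finset.sum_insert ha, ← add_assoc, Finset.sum_insert ha, sum_insert_dt s S ha]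
    have h1 := ih (A + segment ℝ 0 (s a)) (fun i => W i + |dt (s i) (s a)|) (hA.add (seg_compact _))
      (hc.add (convex_segment _ _)) (fun i => add_nonneg (hW i) (abs_nonneg _)) (by
        rintro i _ ⟨x, hx, u, hu, rfl⟩ _ ⟨y, hy, v, hv, rfl⟩
        rw [segment_eq_image] at hu hv
        obtain ⟨t, ht, rfl⟩ := hu
        obtain ⟨t', ht', rfl⟩ := hv
        simp only [smul_zero, zero_add, dt_add, dt_smul]
        have h2 := h i x hx y hy
        have h3 : (t - t') * dt (s i) (s a) ≤ |dt (s i) (s a)| := by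
          refine (le_abs_self _).trans ?_
          rw [abs_mul]
          exact mul_le_of_le_one_left (abs_nonneg _)
            (abs_le.2 ⟨by linarith [ht.1, ht'.2], by linarith [ht.2, ht'.1]⟩)
        linarith)
    have h2 : volume.real (dt (s a) '' A) ≤ W a := by
      refine ENNReal.toReal_le_of_le_ofReal (hW a) ((Real.volume_le_diam _).trans ?_)
      refine ediam_le_of_forall_dist_le ?_
      rintro _ ⟨x, hx, rfl⟩ _ ⟨y, hy, rfl⟩
      rw [Real.dist_eq]
      exact abs_le.2 ⟨by linarith [h a y hy x hx], h a x hx y hy⟩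
    rw [seg_real hA hc, Finset.sum_add_distrib] at h1
    linarith

theorem zono_lower (s : ι → E 2) (S : Finset ι) : ∀ (A : Set (E 2)) (W : ι → ℝ), IsCompact A →
    Convex ℝ A → (∀ i, ∃ x ∈ A, ∃ y ∈ A, W i ≤ dt (s i) x - dt (s i) y) →
    volume.real A + ∑ i ∈ S, W i + (∑ i ∈ S, ∑ j ∈ S, |dt (s i) (s j)|) / 2 ≤
      volume.real (A + ∑ i ∈ S, segment ℝ 0 (s i)) := by
  induction S using Finset.induction_on with
  | empty => intro A W _ _ _; simp
  | insert a S ha ih =>
    intro A W hA hc h
    rw [sum_insert_dt s S ha, Finset.sum_insert ha, Finset.sum_insert ha, ← add_assoc A]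
    have h1 := ih (A + segment ℝ 0 (s a)) (fun i => W i + |dt (s i) (s a)|) (hA.add (seg_compact _))
      (hc.add (convex_segment _ _)) (by
        intro i
        obtain ⟨x, hx, y, hy, h2⟩ := h i
        rcases le_total 0 (dt (s i) (s a)) with h3 | h3
        · refine ⟨x + s a, add_mem_add hx (right_mem_segment _ _ _), y + 0,
            add_mem_add hy (left_mem_segment _ _ _), ?_⟩
          rw [add_zero, dt_add, abs_of_nonneg h3]
          linarith
        · refine ⟨x + 0, add_mem_add hx (left_mem_segment _ _ _), y + s a,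
            add_mem_add hy (right_mem_segment _ _ _), ?_⟩
          rw [add_zero, dt_add, abs_of_nonpos h3]
          linarith)
    have h2 : W a ≤ volume.real (dt (s a) '' A) := by
      obtain ⟨x, hx, y, hy, h2⟩ := h a
      have h3 : Icc (dt (s a) y) (dt (s a) x) ⊆ dt (s a) '' A :=
        (hc.isPreconnected.image _ (dt_cont _).continuousOn).Icc_subset ⟨y, hy, rfl⟩ ⟨x, hx, rfl⟩
      have h4 := measureReal_mono (μ := volume) h3 (hA.image (dt_cont _)).measure_lt_top.ne
      rw [Real.volume_real_Icc] at h4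
      exact h2.trans ((le_max_left _ _).trans h4)
    rw [seg_real hA hc, Finset.sum_add_distrib] at h1
    linarith

omit [DecidableEq ι] in
theorem zono_compact (s : ι → E 2) (S : Finset ι) : IsCompact (∑ i ∈ S, segment ℝ 0 (s i)) := by
  classical
  induction S using Finset.induction_on with
  | empty => exact isCompact_singleton
  | insert a S ha ih => rw [Finset.sum_insert ha]; exact (seg_compact _).add ih

omit [DecidableEq ι] in
theorem zono_ineq [Fintype ι] (s : ι → E 2) {K : Set (E 2)} (hK : IsCompact K) (hc : Convex ℝ K)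
    (w : ι → ℝ) (hw : ∀ i, 0 ≤ w i) (h : ∀ i, ∀ x ∈ K, |dt (s i) x| ≤ w i) :
    volume.real K * ∑ i, ∑ j, |dt (s i) (s j)| ≤ 2 * (∑ i, w i) ^ 2 := by
  classical
  set k := volume.real K with hk
  set D := ∑ i, ∑ j, |dt (s i) (s j)| with hD
  have hk0 : 0 ≤ k := measureReal_nonneg
  have hD0 : 0 ≤ D := Finset.sum_nonneg fun _ _ => Finset.sum_nonneg fun _ _ => abs_nonneg _
  have hw0 : 0 ≤ ∑ i, w i := Finset.sum_nonneg fun i _ => hw i
  rcases hD0.eq_or_lt with h0 | hDp
  · rw [← h0, mul_zero]; positivity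
  rcases hk0.eq_or_lt with h0 | hkp
  · rw [← h0, zero_mul]; positivity
  set t := √(2 * k / D) with ht
  have ht0 : 0 < t := Real.sqrt_pos.2 (by positivity)
  have ht2 : t ^ 2 = 2 * k / D := Real.sq_sqrt (by positivity)
  have hsum : (∑ i, ∑ j, |dt (t • s i) (t • s j)|) / 2 = k := by
    have : ∀ i j, |dt (t • s i) (t • s j)| = t ^ 2 * |dt (s i) (s j)| := by
      intro i j
      rw [← abs_of_nonneg (sq_nonneg t), ← abs_mul]
      congr 1
      simp [dt]; ring
    simp_rw [this, ← Finset.mul_sum]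
    rw [← hD, ht2]
    field_simp
  set Z := ∑ i, segment ℝ 0 (t • s i) with hZ
  have hZc : IsCompact Z := zono_compact _ _
  have h1 := zono_lower (fun i => t • s i) Finset.univ {0} (fun _ => 0) isCompact_singleton
    (convex_singleton _) (fun i => ⟨0, rfl, 0, rfl, by simp⟩)
  rw [hsum, ← hZ, show ({0} : Set (E 2)) = 0 from rfl, zero_add] at h1
  have h1' : k ≤ volume.real Z := by
    have : 0 ≤ volume.real (0 : Set (E 2)) := measureReal_nonneg
    simp only [Finset.sum_const_zero, add_zero] at h1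
    linarith
  have h2 := zono_upper (fun i => t • s i) Finset.univ K (fun i => 2 * t * w i) hK hc
    (fun i => by have := hw i; positivity) (fun i x hx y hy => by
      have h3 : ∀ z, dt (t • s i) z = t * dt (s i) z := fun z => by simp [dt]; ring
      rw [h3, h3]
      have h4 := abs_le.1 (h i x hx)
      have h5 := abs_le.1 (h i y hy)
      nlinarith)
  rw [hsum, ← hZ, ← Finset.mul_sum] at h2
  have h3 := Pool.Agent.Shared.BrunnMinkowski.le_volume_of_le (l := 1 / 2) (by norm_num)
    (by norm_num) hK hZc ((hK.add hZc).smul (1 / 2 : ℝ)) (T := k) (fun a ha b hb =>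
      ⟨a + b, add_mem_add ha hb, by simp only; module⟩) le_rfl h1'
  rw [measureReal_def, Measure.addHaar_smul, ENNReal.toReal_mul,
    ENNReal.toReal_ofReal (abs_nonneg _), finrank_euclideanSpace_fin, ← measureReal_def] at h3
  norm_num at h3
  have h4 : k ≤ t * ∑ i, w i := by linarith
  have h5 : k ^ 2 ≤ (t * ∑ i, w i) ^ 2 := by gcongr
  rw [mul_pow, ht2, div_mul_eq_mul_div, le_div_iff₀ hDp] at h5
  nlinarith

end Pool.Agent.Lib.MP_8115c2_gt.Log
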