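import Pool.Agent.Lib.MP_8115c2_gt.Two.Contract
import Pool.Agent.Lib.MP_8115c2_gt.Two.Zono
import Pool.Agent.Lib.MP_8115c2_gt.Log.Main
import Pool.Agent.Lib.MP_8115c2_gt.Main

/-!
The sharp lower bound for the area of a filling of the Euclidean circle by a metric disc.
-/

open MeasureTheory Set Metric Filter Topology
open scoped ENNReal Pointwise Real

namespace Pool.Agent.Lib.MP_8115c2_gt.Log

section Rows
variable {ι : Type} [Fintype ι]

/-- Two rows of a matrix. -/
def rows (G : ι → ι → ℝ) (p : ι × ι) : ι → E 2 := fun k => !₂[G p.1 k, G p.2 k]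

theorem TT_rows0 (G : ι → ι → ℝ) (p : ι × ι) (w : ι → ℝ) :
    TT (rows G p) w 0 = ∑ k, w k * G p.1 k := by
  simp [TT_apply, rows]

theorem TT_rows1 (G : ι → ι → ℝ) (p : ι × ι) (w : ι → ℝ) :
    TT (rows G p) w 1 = ∑ k, w k * G p.2 k := by
  simp [TT_apply, rows]

/-- The vector dual to a row. -/
noncomputable def dv (L : E 2 →L[ℝ] (ι → ℝ)) (G : ι → ι → ℝ) (i : ι) : E 2 :=
  !₂[∑ k, L (EuclideanSpace.single 1 1) k * G i k, -∑ k, L (EuclideanSpace.single 0 1) k * G i k]

theorem dt_dv (L : E 2 →L[ℝ] (ι → ℝ)) (G : ι → ι → ℝ) (i : ι) (x : E 2) :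
    dt (dv L G i) x = ∑ k, L x k * G i k := by
  have hx : x = x 0 • EuclideanSpace.single 0 1 + x 1 • EuclideanSpace.single 1 1 := by
    ext j; fin_cases j <;> simp
  conv_rhs => rw [hx]
  simp only [map_add, map_smul, Pi.add_apply, Pi.smul_apply, smul_eq_mul, add_mul, mul_assoc,
    Finset.sum_add_distrib, ← Finset.mul_sum]
  simp [dt, dv]
  ring

theorem det_rows (L : E 2 →L[ℝ] (ι → ℝ)) (G : ι → ι → ℝ) (p : ι × ι) :
    LinearMap.det (((TT (rows G p)).comp L : E 2 →L[ℝ] E 2) : E 2 →ₗ[ℝ] E 2) =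
      dt (dv L G p.1) (dv L G p.2) := by
  rw [det2]
  simp only [dt, ContinuousLinearMap.coe_coe, ContinuousLinearMap.comp_apply, TT_rows0, TT_rows1]
  simp [dv]
  ring

theorem vol_rows (L : E 2 →L[ℝ] (ι → ℝ)) (G : ι → ι → ℝ) (p : ι × ι) (K : Set (E 2)) :
    volume.real ((TT (rows G p)).comp L '' K) = |dt (dv L G p.1) (dv L G p.2)| * volume.real K := by
  rw [measureReal_def, Measure.addHaar_image_continuousLinearMap, det_rows, ENNReal.toReal_mul,
    ENNReal.toReal_ofReal (abs_nonneg _), measureReal_def]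

theorem contr_rows (G : ι → ι → ℝ) :
    Contr (fun p : ι × ι => TT (rows G p)) (2 * (∑ i, ∑ k, |G i k|) ^ 2) := by
  intro L K hK hc h
  simp_rw [vol_rows]
  rw [← Finset.sum_mul, Fintype.sum_prod_type, mul_comm]
  refine zono_ineq (dv L G) hK hc (fun i => ∑ k, |G i k|)
    (fun i => Finset.sum_nonneg fun _ _ => abs_nonneg _) fun i x hx => ?_
  rw [dt_dv]
  refine (Finset.abs_sum_le_sum_abs _ _).trans (Finset.sum_le_sum fun k _ => ?_)
  rw [abs_mul]
  exact mul_le_of_le_one_left (abs_nonneg _) ((norm_le_pi_norm (L x) k).trans (h x hx))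

theorem struct_rows {Y : Set (ι → ℝ)} (hY : IsCompact Y) (hYf : μH[(2 : ℕ)] Y ≠ ⊤) :
    ∀ᵐ G : ι → ι → ℝ, ∀ p : ι × ι, ∃ (Z : Set (ι → ℝ)) (Γ : ℕ → Set (ι → ℝ)), Y ⊆ Z ∪ ⋃ i, Γ i ∧
      volume (TT (rows G p) '' Z) = 0 ∧ ∀ i, Graph (TT (rows G p)) (Γ i) := by
  classical
  refine ae_all_iff.2 fun p => ?_
  by_cases hp : p.1 = p.2
  · refine Eventually.of_forall fun G => ⟨univ, fun _ => ∅, by simp, ?_,
      fun _ => ⟨1, one_pos, by simp⟩⟩
    rw [image_univ]
    refine Measure.addHaar_submodule volume (TT (rows G p)).range fun h => ?_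
    have h1 : (EuclideanSpace.single 0 1 : E 2) ∈ (TT (rows G p)).range := by
      rw [h]; trivial
    obtain ⟨w, hw⟩ := h1
    have h2 := TT_rows0 G p w
    have h3 := TT_rows1 G p w
    rw [← hp, ← h2] at h3
    rw [ContinuousLinearMap.coe_coe] at hw
    rw [hw] at h3
    simp at h3
  let R : (ι → ι → ℝ) →ₗ[ℝ] (ι → E 2) :=
    { toFun := fun G => rows G p
      map_add' := fun G G' => by
        ext k j; fin_cases j <;> simp [rows]
      map_smul' := fun c G => by
        ext k j; fin_cases j <;> simp [rows] }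
  have hR : Function.Surjective R := by
    intro a
    refine ⟨fun i k => if i = p.1 then a k 0 else a k 1, ?_⟩
    ext k j
    fin_cases j <;> simp [R, rows, Ne.symm hp]
  obtain ⟨c, -, hc⟩ := R.exists_map_addHaar_eq_smul_addHaar volume volume hR
  refine ae_of_ae_map (f := R) R.continuous_of_finiteDimensional.aemeasurable
    (p := fun a => ∃ (Z : Set (ι → ℝ)) (Γ : ℕ → Set (ι → ℝ)), Y ⊆ Z ∪ ⋃ i, Γ i ∧
      volume (TT a '' Z) = 0 ∧ ∀ i, Graph (TT a) (Γ i)) ?_
  rw [hc]
  exact Measure.ae_smul_measure (struct two_pos hY hYf) c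

end Rows

theorem ball_subset_range {n : ℕ} {X : Type} [TopologicalSpace X]
    (φ : X ≃ₜ closedBall (0 : E n) 1) (G : X → E n) (hG : Continuous G)
    (h : ∀ x, ‖(φ x : E n)‖ = 1 → G x = φ x) : ball (0 : E n) 1 ⊆ range G := by
  intro p hp
  rw [mem_ball_zero_iff] at hp
  have hp' : 0 < 1 - ‖p‖ := by linarith
  obtain ⟨x, hx⟩ := ball_subset_image φ (fun x => G x - max 0 ((1 - ‖G x‖) / (1 - ‖p‖)) • p)
    (by fun_prop) (fun x hx => by rw [h x hx, hx]; simp) (mem_ball_self (by norm_num))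
  have h1 : G x = max 0 ((1 - ‖G x‖) / (1 - ‖p‖)) • p := sub_eq_zero.1 hx
  have h2 := congrArg norm h1
  rw [norm_smul, Real.norm_eq_abs, abs_of_nonneg (le_max_left _ _)] at h2
  refine ⟨x, ?_⟩
  rcases le_total 0 ((1 - ‖G x‖) / (1 - ‖p‖)) with h3 | h3
  · rw [max_eq_right h3] at h1 h2
    have h4 : (1 - ‖G x‖) / (1 - ‖p‖) = 1 := by
      rw [div_mul_eq_mul_div, eq_div_iff hp'.ne'] at h2
      rw [div_eq_one_iff_eq hp'.ne']
      linarith
    rw [h1, h4, one_smul]
  · rw [max_eq_left h3, zero_mul] at h2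
    rw [h2, sub_zero] at h3
    exact absurd h3 (not_le.2 (by positivity))

theorem image_ball_le {n : ℕ} {X : Type} [TopologicalSpace X]
    (φ : X ≃ₜ closedBall (0 : E n) 1) (G : X → E n) (hG : Continuous G) (M : E n →L[ℝ] E n)
    (h : ∀ x, ‖(φ x : E n)‖ = 1 → G x = M (φ x)) :
    volume (M '' ball (0 : E n) 1) ≤ volume (range G) := by
  by_cases hM : LinearMap.det (M : E n →ₗ[ℝ] E n) = 0
  · rw [Measure.addHaar_image_continuousLinearMap, hM]
    simp
  set e := M.toContinuousLinearEquivOfDetNeZero hM with he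
  have h1 := ball_subset_range φ (fun x => e.symm (G x)) (by fun_prop) fun x hx => by
    rw [h x hx]
    exact e.symm_apply_apply _
  refine measure_mono ?_
  rintro _ ⟨z, hz, rfl⟩
  obtain ⟨x, rfl⟩ := h1 hz
  exact ⟨x, (e.apply_symm_apply _).symm⟩

theorem sum_sin (N : ℕ) (hN : 0 < N) (a : ℝ) :
    2 ≤ π / N * ∑ j : Fin N, |Real.sin (j * (π / N) - a)| + π * (π / N) := by
  have hN' : (0 : ℝ) < N := by exact_mod_cast hN
  set h := π / N with hh
  have h0 : 0 < h := div_pos Real.pi_pos hN'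
  have hc : Continuous fun t => |Real.sin (t - a)| := by fun_prop
  have h1 := intervalIntegral.sum_integral_adjacent_intervals (μ := volume)
    (f := fun t => |Real.sin (t - a)|) (a := fun k : ℕ => k * h) (n := N)
    (fun k _ => hc.intervalIntegrable _ _)
  have h2 : ∫ t in (0 : ℝ)..0 + π, |Real.sin (t - a)| = 2 := by
    have hp : Function.Periodic (fun t => |Real.sin (t - a)|) π := fun t => by
      simp only
      rw [add_sub_right_comm, Real.sin_add_pi, abs_neg]
    rw [hp.intervalIntegral_add_eq 0 a,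
      intervalIntegral.integral_comp_sub_right (fun t => |Real.sin t|), sub_self,
      add_sub_cancel_left, intervalIntegral.integral_congr (g := Real.sin)]
    · simp; norm_num
    · intro t ht
      rw [uIcc_of_le Real.pi_pos.le] at ht
      exact abs_of_nonneg (Real.sin_nonneg_of_mem_Icc ht)
  have h3 : (N : ℝ) * h = π := by rw [hh]; field_simp
  simp only [Nat.cast_zero, zero_mul, h3] at h1
  rw [zero_add] at h2
  rw [← h2, ← h1, Fin.sum_univ_eq_sum_range (fun j : ℕ => |Real.sin (j * h - a)|), Finset.mul_sum]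
  have h4 : π * h = ∑ _k ∈ Finset.range N, h * h := by
    rw [Finset.sum_const, Finset.card_range, nsmul_eq_mul, ← mul_assoc, h3]
  rw [h4, ← Finset.sum_add_distrib]
  refine Finset.sum_le_sum fun k _ => ?_
  have h5 : (k : ℝ) * h ≤ (k + 1 : ℕ) * h := by push_cast; linarith
  have h6 := intervalIntegral.integral_mono_on (μ := volume) h5 (hc.intervalIntegrable _ _)
    (g := fun _ => |Real.sin (k * h - a)| + h) (by simp) fun t ht => by
      have h7 := Real.abs_sin_sub_sin_le (t - a) (k * h - a)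
      have h8 := abs_sub_abs_le_abs_sub (Real.sin (t - a)) (Real.sin (k * h - a))
      have h9 : |t - a - (k * h - a)| ≤ h := by
        have := ht.2
        push_cast at this
        exact abs_le.2 ⟨by linarith [ht.1], by linarith⟩
      linarith
  refine h6.trans (le_of_eq ?_)
  rw [intervalIntegral.integral_const, smul_eq_mul]
  push_cast
  ring

/-- The support functions of `N` equally spaced directions. -/
noncomputable def JN (N : ℕ) : E 2 →L[ℝ] (Fin N → ℝ) :=
  ContinuousLinearMap.pi fun k =>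
    innerSL ℝ (!₂[Real.cos (k * (π / N)), Real.sin (k * (π / N))] : E 2)

theorem JN_norm (N : ℕ) (z : E 2) : ‖JN N z‖ ≤ ‖z‖ := by
  refine (pi_norm_le_iff_of_nonneg (norm_nonneg _)).2 fun k => ?_
  refine (norm_inner_le_norm (𝕜 := ℝ)
    (!₂[Real.cos (k * (π / N)), Real.sin (k * (π / N))] : E 2) z).trans (le_of_eq ?_)
  rw [EuclideanSpace.norm_eq]
  simp

theorem dt_JN (N : ℕ) (i j : Fin N) :
    dt (dv (JN N) (fun i k => if i = k then 1 else 0) i)
      (dv (JN N) (fun i k => if i = k then 1 else 0) j) = Real.sin (j * (π / N) - i * (π / N)) := by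
  rw [Real.sin_sub]
  simp [dt, dv, JN, EuclideanSpace.inner_single_right]
  ring

theorem four_le {X : Type} [MetricSpace X] [MeasurableSpace X] [BorelSpace X]
    (φ : X ≃ₜ closedBall (0 : E 2) 1)
    (h : ∀ x y : X, ‖(φ x : E 2)‖ = 1 → ‖(φ y : E 2)‖ = 1 → ‖(φ x : E 2) - φ y‖ ≤ dist x y) :
    4 ≤ μH[(2 : ℕ)] (univ : Set X) := by
  by_cases hX : μH[(2 : ℕ)] (univ : Set X) = ⊤
  · rw [hX]; exact le_top
  set H := (μH[(2 : ℕ)] (univ : Set X)).toReal with hH
  have hH0 : 0 ≤ H := ENNReal.toReal_nonneg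
  have : CompactSpace X := φ.symm.compactSpace
  have key : ∀ N : ℕ, 0 < N → 4 - 2 * π ^ 2 / N ≤ H := by
    intro N hN
    have hN' : (0 : ℝ) < N := by exact_mod_cast hN
    have : Nonempty (Fin N) := ⟨⟨0, hN⟩⟩
    have hlip : LipschitzOnWith 1 (fun x : X => JN N (φ x : E 2)) {x | ‖(φ x : E 2)‖ = 1} :=
      LipschitzOnWith.of_dist_le_mul fun x hx y hy => by
        rw [dist_eq_norm, ← map_sub, NNReal.coe_one, one_mul]
        exact (JN_norm _ _).trans (h x y hx hy)
    obtain ⟨β, hβ, hβJ⟩ := hlip.extend_pi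
    have hY : IsCompact (range β) := isCompact_range hβ.continuous
    have hYle : μH[(2 : ℕ)] (range β) ≤ μH[(2 : ℕ)] (univ : Set X) := by
      have := hβ.hausdorffMeasure_image_le (d := ((2 : ℕ) : ℝ)) (Nat.cast_nonneg 2) univ
      simpa using this
    have hYf : μH[(2 : ℕ)] (range β) ≠ ⊤ := ne_top_of_le_ne_top hX hYle
    have h1 : ∀ ε : ℝ, 0 < ε → ∀ᵐ G : Fin N → Fin N → ℝ,
        (∑ p : Fin N × Fin N, |dt (dv (JN N) G p.1) (dv (JN N) G p.2)|) * π ≤
          ((1 + ε) / 2) ^ 2 * (2 * (∑ i, ∑ k, |G i k|) ^ 2 + ε) * H := by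
      intro ε hε
      filter_upwards [struct_rows hY hYf] with G hG
      have h2 := (rect_nu (contr_rows G) (by positivity) hε _ hY.measurableSet hG).trans
        (mul_le_mul_right hYle _)
      rw [nu_apply] at h2
      have h3 : ∀ p : Fin N × Fin N, volume ((TT (rows G p)).comp (JN N) '' ball (0 : E 2) 1) ≤
          volume (TT (rows G p) '' range β) := by
        intro p
        rw [← range_comp]
        exact image_ball_le φ _ ((TT _).continuous.comp hβ.continuous) _ fun x hx => by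
          rw [Function.comp_apply, ← hβJ hx]; rfl
      have h4 := ENNReal.toReal_mono (ENNReal.mul_ne_top ENNReal.ofReal_ne_top hX)
        ((Finset.sum_le_sum fun p _ => h3 p).trans h2)
      rw [ENNReal.toReal_mul, ENNReal.toReal_ofReal (by positivity), ENNReal.toReal_sum
        (fun p _ => ((isBounded_ball.image _).measure_lt_top).ne)] at h4
      simp_rw [← measureReal_def, vol_rows] at h4
      rw [← Finset.sum_mul, measureReal_def, EuclideanSpace.volume_ball_fin_two] at h4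
      simpa [ENNReal.toReal_ofReal Real.pi_pos.le, hH, measureReal_def] using h4
    have h2 : ∀ ε : ℝ, 0 < ε → (∑ i : Fin N, ∑ j : Fin N, |Real.sin (j * (π / N) - i * (π / N))|)
        * π ≤ ((1 + ε) / 2) ^ 2 * (2 * (N : ℝ) ^ 2 + ε) * H := by
      intro ε hε
      have h3 := (isClosed_le (by unfold dt dv; fun_prop) (by fun_prop)).closure_subset
        (Measure.dense_of_ae (h1 ε hε) fun i k => if i = k then 1 else 0)
      rw [mem_ofPred_eq, Fintype.sum_prod_type] at h3
      simp_rw [dt_JN] at h3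
      have h4 : ∑ i : Fin N, ∑ k : Fin N, |(if i = k then 1 else 0 : ℝ)| = N := by
        simp [apply_ite abs]
      rwa [h4] at h3
    have h3 : (∑ i : Fin N, ∑ j : Fin N, |Real.sin (j * (π / N) - i * (π / N))|) * π ≤
        ((1 + 0) / 2) ^ 2 * (2 * (N : ℝ) ^ 2 + 0) * H := by
      refine ge_of_tendsto (x := 𝓝[>] (0 : ℝ))
        (f := fun ε : ℝ => ((1 + ε) / 2) ^ 2 * (2 * (N : ℝ) ^ 2 + ε) * H)
        (tendsto_nhdsWithin_of_tendsto_nhds (Continuous.tendsto (by fun_prop) 0)) ?_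
      filter_upwards [self_mem_nhdsWithin] with ε hε using h2 ε hε
    have h4 := Finset.sum_le_sum fun (i : Fin N) (_ : i ∈ Finset.univ) =>
      sum_sin N hN (i * (π / N))
    rw [Finset.sum_add_distrib, ← Finset.mul_sum] at h4
    simp only [Finset.sum_const, Finset.card_univ, Fintype.card_fin, nsmul_eq_mul] at h4
    set S := ∑ i : Fin N, ∑ j : Fin N, |Real.sin (j * (π / N) - i * (π / N))| with hS
    have h5 : (N : ℝ) * 2 * N ≤ S * π + N * π ^ 2 := by
      have := mul_le_mul_of_nonneg_right h4 hN'.le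
      refine this.trans (le_of_eq ?_)
      field_simp
    rw [sub_le_iff_le_add, ← sub_le_iff_le_add', le_div_iff₀ hN']
    have h6 : N * ((4 - H) * N) ≤ N * (2 * π ^ 2) := by nlinarith
    exact le_of_mul_le_mul_left h6 hN'
  have h1 : 4 ≤ H := by
    have h2 : Tendsto (fun N : ℕ => 4 - 2 * π ^ 2 / N) atTop (𝓝 (4 - 0)) :=
      tendsto_const_nhds.sub (tendsto_const_div_atTop_nhds_zero_nat _)
    rw [sub_zero] at h2
    exact le_of_tendsto h2 ((eventually_gt_atTop 0).mono key)
  rw [← ENNReal.ofReal_toReal hX, ← ENNReal.ofReal_ofNat]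
  exact ENNReal.ofReal_le_ofReal h1

theorem pi_le {X : Type} [MetricSpace X] [MeasurableSpace X] [BorelSpace X]
    (φ : X ≃ₜ closedBall (0 : E 2) 1)
    (h : ∀ x y : X, ‖(φ x : E 2)‖ = 1 → ‖(φ y : E 2)‖ = 1 → ‖(φ x : E 2) - φ y‖ ≤ dist x y) :
    ENNReal.ofReal π ≤ μHE[2] (univ : Set X) := by
  have h1 : ENNReal.ofReal π = μHE[2] (ball (0 : E 2) 1) := by
    rw [EuclideanSpace.euclideanHausdorffMeasure_eq_volume, EuclideanSpace.volume_ball_fin_two]
    simp
  rw [h1, Measure.euclideanHausdorffMeasure_def, Measure.euclideanHausdorffMeasure_def,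
    Measure.smul_apply, Measure.smul_apply, ENNReal.smul_def, ENNReal.smul_def]
  refine mul_le_mul_right ((ball_le 2).trans (le_trans (le_of_eq ?_) (four_le φ h))) _
  norm_num

end Pool.Agent.Lib.MP_8115c2_gt.Log
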